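import Pool.Agent.Helper65.AH.St

/-! Module AN of project AH (MP_1bacb5_al): analytic displacements are of power type. -/

set_option autoImplicit false

universe u

namespace Pool.Agent.Helper28.AH

open Pool.Agent.Helper58.RK Pool.Agent.Helper65.AH
open Filter Topology

theorem pAN : StAN := by
  intro f v hv hv0 hu
  by_cases hz : ∀ᶠ z in 𝓝 (0 : ℝ), v z = 0
  · left
    filter_upwards [hu, hz.filter_mono nhdsWithin_le_nhds] with x h1 h2
    rw [h1, h2]
  right
  obtain ⟨n, w, hw, hw0, hvw⟩ := hv.exists_eventuallyEq_pow_smul_nonzero_iff.2 hz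
  obtain ⟨m, rfl⟩ : ∃ m, n = m + 1 := by
    rcases n with _ | m
    · exfalso
      have := hvw.self_of_nhds
      rw [hv0] at this
      simp at this
      exact hw0 this.symm
    · exact ⟨m, rfl⟩
  have hfw : ∀ᶠ x in 𝓝[>] (0 : ℝ), f x = x ^ (m + 1) * w x := by
    filter_upwards [hu, hvw.filter_mono nhdsWithin_le_nhds] with x h1 h2
    rw [h1, h2, sub_zero, smul_eq_mul]
  have hpos : ∀ᶠ x in 𝓝[>] (0 : ℝ), 0 < x := self_mem_nhdsWithin
  have hwt : Tendsto w (𝓝[>] 0) (𝓝 (w 0)) :=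
    hw.continuousAt.tendsto.mono_left nhdsWithin_le_nhds
  have hdt : Tendsto (deriv w) (𝓝[>] 0) (𝓝 (deriv w 0)) :=
    hw.deriv.continuousAt.tendsto.mono_left nhdsWithin_le_nhds
  have hxt : Tendsto (fun x : ℝ => x) (𝓝[>] 0) (𝓝 0) :=
    tendsto_id.mono_left nhdsWithin_le_nhds
  refine ⟨w 0, ((m + 1 : ℕ) : ℝ), hw0, by positivity,
    fun x => ((m + 1 : ℕ) : ℝ) * x ^ m * w x + x ^ (m + 1) * deriv w x, ?_, ?_, ?_⟩
  · have h1 := eventually_eventually_nhdsWithin.2 hfw
    filter_upwards [h1, hpos, (hw.eventually_analyticAt).filter_mono nhdsWithin_le_nhds]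
      with x h2 h3 h4
    have h5 : f =ᶠ[𝓝 x] fun x => x ^ (m + 1) * w x := by
      rwa [IsOpen.nhdsWithin_eq isOpen_Ioi h3] at h2
    have h6 : HasDerivAt (fun x : ℝ => x ^ (m + 1) * w x)
        (((m + 1 : ℕ) : ℝ) * x ^ m * w x + x ^ (m + 1) * deriv w x) x := by
      have := (hasDerivAt_pow (m + 1) x).fun_mul h4.differentiableAt.hasDerivAt
      exact this
    exact h6.congr_of_eventuallyEq h5
  · refine hwt.congr' ?_
    filter_upwards [hfw, hpos] with x h1 h2
    rw [h1, Real.rpow_natCast]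
    field_simp
  · have h7 : Tendsto (fun x => ((m + 1 : ℕ) : ℝ) * w x + x * deriv w x) (𝓝[>] 0)
        (𝓝 (((m + 1 : ℕ) : ℝ) * w 0)) := by
      have := (hwt.const_mul ((m + 1 : ℕ) : ℝ)).add (hxt.mul hdt)
      simpa using this
    refine h7.congr' ?_
    filter_upwards [hpos] with x h2
    have e : x ^ (((m + 1 : ℕ) : ℝ) - 1) = x ^ m := by
      rw [show (((m + 1 : ℕ) : ℝ) - 1) = (m : ℝ) by push_cast; ring, Real.rpow_natCast]
    rw [e]
    field_simp
    ring

end Pool.Agent.Helper28.AH
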